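import Pool.Agent.Helper70.KN.Goals

/-!
# Project KN, packet XX: the ratio of consecutive `T V k`
-/

open MeasureTheory Set

namespace Pool.Agent.Helper32.KN.XX

open Pool.Agent.Helper70.KN

theorem double {N : ℕ} (f : Finset (Fin N) → ℝ) (k : ℕ) :
    ((k : ℝ) + 1) * ∑ J ∈ (Finset.univ : Finset (Fin N)).powersetCard (k + 1), f J =
      ∑ J ∈ (Finset.univ : Finset (Fin N)).powersetCard k, ∑ i ∈ Jᶜ, f (insert i J) := by
  classical
  have h1 : ((k : ℝ) + 1) * ∑ J ∈ (Finset.univ : Finset (Fin N)).powersetCard (k + 1), f J =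
      ∑ J ∈ (Finset.univ : Finset (Fin N)).powersetCard (k + 1), ∑ i ∈ J, f J := by
    rw [Finset.mul_sum]
    refine Finset.sum_congr rfl fun J hJ => ?_
    rw [Finset.sum_const, (Finset.mem_powersetCard.1 hJ).2, nsmul_eq_mul]
    push_cast
    rfl
  rw [h1, Finset.sum_sigma', Finset.sum_sigma']
  refine Finset.sum_bij' (fun x _ => ⟨x.1.erase x.2, x.2⟩) (fun x _ => ⟨insert x.2 x.1, x.2⟩) ?_ ?_ ?_ ?_ ?_
  · intro x hx
    rw [Finset.mem_sigma, Finset.mem_powersetCard] at hx
    rw [Finset.mem_sigma, Finset.mem_powersetCard]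
    refine ⟨⟨Finset.subset_univ _, ?_⟩, ?_⟩
    · have := Finset.card_erase_of_mem hx.2
      show (x.1.erase x.2).card = k
      rw [this, hx.1.2]
      rfl
    · show x.2 ∈ (x.1.erase x.2)ᶜ
      rw [Finset.mem_compl]
      exact Finset.notMem_erase _ _
  · intro x hx
    rw [Finset.mem_sigma, Finset.mem_powersetCard, Finset.mem_compl] at hx
    rw [Finset.mem_sigma, Finset.mem_powersetCard]
    refine ⟨⟨Finset.subset_univ _, ?_⟩, ?_⟩
    · show (insert x.2 x.1).card = k + 1
      rw [Finset.card_insert_of_notMem hx.2, hx.1.2]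
    · exact Finset.mem_insert_self _ _
  · intro x hx
    rw [Finset.mem_sigma] at hx
    have := Finset.insert_erase hx.2
    show (⟨insert x.2 (x.1.erase x.2), x.2⟩ : Σ _ : Finset (Fin N), Fin N) = x
    rw [this]
  · intro x hx
    rw [Finset.mem_sigma, Finset.mem_compl] at hx
    have := Finset.erase_insert hx.2
    show (⟨(insert x.2 x.1).erase x.2, x.2⟩ : Σ _ : Finset (Fin N), Fin N) = x
    rw [this]
  · intro x hx
    rw [Finset.mem_sigma] at hx
    show f x.1 = f (insert x.2 (x.1.erase x.2))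
    rw [Finset.insert_erase hx.2]

theorem t (hCC : S_CC) : S_XX := by
  intro N V c hV k hk
  have hkN : (k : ℝ) < N := by exact_mod_cast hk
  have hd := double (W V) k
  have h1 : c * (((k : ℝ) + 1) * X V (k + 1)) ≤ ((N : ℝ) - k) * (((N : ℝ) - k) * X V k) := by
    unfold X
    rw [hd, Finset.mul_sum, Finset.mul_sum, Finset.mul_sum]
    refine Finset.sum_le_sum fun J hJ => ?_
    have hJc := (Finset.mem_powersetCard.1 hJ).2
    rw [Finset.mul_sum]
    have h2 : ∀ i ∈ Jᶜ, c * W V (insert i J) ≤ ((N : ℝ) - k) * W V J := by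
      intro i hi
      have := hCC N V c hV J i (Finset.mem_compl.1 hi)
      rwa [hJc] at this
    refine (Finset.sum_le_sum h2).trans ?_
    rw [Finset.sum_const, Finset.card_compl, Fintype.card_fin, hJc, nsmul_eq_mul, Nat.cast_sub hk.le]
  have hf : ((N - k).factorial : ℝ) = ((N : ℝ) - k) * ((N - (k + 1)).factorial : ℝ) := by
    have h3 : N - k = (N - (k + 1)) + 1 := by omega
    rw [h3, Nat.factorial_succ]
    push_cast
    have h4 : ((N - (k + 1) : ℕ) : ℝ) = (N : ℝ) - (k + 1) := by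
      rw [Nat.cast_sub hk]
      push_cast
      rfl
    rw [h4]
    ring
  have hpos : (0 : ℝ) ≤ ((N - (k + 1)).factorial : ℝ) := by positivity
  have h5 := mul_le_mul_of_nonneg_left h1 hpos
  unfold T
  rw [hf]
  calc ((k : ℝ) + 1) * c * (((N - (k + 1)).factorial : ℝ) * X V (k + 1))
      = ((N - (k + 1)).factorial : ℝ) * (c * (((k : ℝ) + 1) * X V (k + 1))) := by ring
    _ ≤ ((N - (k + 1)).factorial : ℝ) * (((N : ℝ) - k) * (((N : ℝ) - k) * X V k)) := h5
    _ = ((N : ℝ) - k) * (((N : ℝ) - k) * ((N - (k + 1)).factorial : ℝ) * X V k) := by ring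

end Pool.Agent.Helper32.KN.XX
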